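import Pool.Agent.Helper50.PR.Defs

/-! # PR-1: the binomial series of `(1 + n/A)^(1/n)` -/

open Finset

namespace Pool.Agent.Helper50.PR

theorem abs_N_le (n i : ℕ) (hn : 1 ≤ n) : |(N n i : ℝ)| ≤ (i.factorial : ℝ) * (n : ℝ) ^ i := by
  have hn' : (1 : ℝ) ≤ n := by exact_mod_cast hn
  induction i with
  | zero => simp [N]
  | succ i ih =>
    have h1 : N n (i + 1) = N n i * (1 - (i : ℤ) * n) := by
      unfold N
      rw [prod_range_succ]
    have h2 : |(1 : ℝ) - i * n| ≤ (i + 1) * n := by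
      have h3 : (0 : ℝ) ≤ i := Nat.cast_nonneg i
      rw [abs_le]
      constructor <;> nlinarith
    rw [h1, Nat.factorial_succ]
    push_cast
    rw [abs_mul]
    calc |(N n i : ℝ)| * |1 - (i : ℝ) * n|
        ≤ ((i.factorial : ℝ) * (n : ℝ) ^ i) * ((i + 1) * n) :=
          mul_le_mul ih h2 (abs_nonneg _) (by positivity)
      _ = _ := by ring

namespace Binom

theorem desc (n i : ℕ) (hn : 1 ≤ n) :
    (descPochhammer ℤ i).smeval ((1 : ℝ) / n) * (n : ℝ) ^ i = N n i := by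
  have hn' : (n : ℝ) ≠ 0 := by positivity
  induction i with
  | zero => simp [N]
  | succ i ih =>
    have h1 : N n (i + 1) = N n i * (1 - (i : ℤ) * n) := by
      unfold N
      rw [prod_range_succ]
    rw [h1, descPochhammer_succ_right, Polynomial.smeval_mul, Polynomial.smeval_sub,
      Polynomial.smeval_X, Polynomial.smeval_natCast, pow_succ]
    push_cast
    rw [← ih]
    simp only [pow_zero, nsmul_eq_mul, mul_one]
    field_simp
    ring

theorem choose_eq (n i : ℕ) (hn : 1 ≤ n) :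
    Ring.choose ((1 : ℝ) / n) i * (n : ℝ) ^ i = (N n i : ℝ) / (i.factorial : ℝ) := by
  have h1 := Ring.descPochhammer_eq_factorial_smul_choose ((1 : ℝ) / n) i
  rw [nsmul_eq_mul] at h1
  have h2 : (i.factorial : ℝ) ≠ 0 := Nat.cast_ne_zero.2 (Nat.factorial_ne_zero i)
  rw [eq_div_iff h2, ← desc n i hn, h1]
  ring

theorem hasSum_xi (n : ℕ) (hn : 1 ≤ n) (A : ℝ) (hA : 2 * (n : ℝ) ≤ A) :
    HasSum (fun i : ℕ => (N n i : ℝ) / (i.factorial : ℝ) * (1 / A) ^ i) (xi n A) := by
  have hn' : (1 : ℝ) ≤ n := by exact_mod_cast hn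
  have hA0 : 0 < A := by linarith
  have hlt : (n : ℝ) / A < 1 := by
    rw [div_lt_one hA0]
    linarith
  have hmem : (n : ℝ) / A ∈ Metric.eball (0 : ℝ) 1 := by
    rw [← ENNReal.ofReal_one, Metric.eball_ofReal, Metric.mem_ball, dist_zero_right,
      Real.norm_eq_abs, abs_of_nonneg (by positivity)]
    exact hlt
  have h := (Real.one_add_rpow_hasFPowerSeriesOnBall_zero (a := (1 : ℝ) / n)).hasSum hmem
  rw [zero_add] at h
  have he : (fun i : ℕ => (N n i : ℝ) / (i.factorial : ℝ) * (1 / A) ^ i) =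
      fun i : ℕ => (binomialSeries ℝ ((1 : ℝ) / n) i) fun _ => (n : ℝ) / A := by
    ext i
    rw [binomialSeries_apply, ← choose_eq n i hn]
    simp only [List.ofFn_const, List.prod_replicate, smul_eq_mul]
    rw [div_pow, div_pow, one_pow]
    ring
  rw [he]
  exact h

end Binom

open Binom in
theorem xi_trunc (n l : ℕ) (hn : 1 ≤ n) (A : ℝ) (hA : 2 * (n : ℝ) ≤ A) :
    |A ^ l * xi n A - T n A l| ≤ 2 * (n : ℝ) ^ (l + 1) / A := by
  have hn' : (1 : ℝ) ≤ n := by exact_mod_cast hn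
  have hA0 : 0 < A := by linarith
  have hlt : (n : ℝ) / A < 1 := by
    rw [div_lt_one hA0]
    linarith
  have hhalf : (n : ℝ) / A ≤ 1 / 2 := by
    rw [div_le_iff₀ hA0]
    linarith
  have h := (hasSum_xi n hn A hA).mul_left (A ^ l)
  rw [← hasSum_nat_add_iff' (l + 1)] at h
  have hT : ∑ i ∈ range (l + 1), A ^ l * ((N n i : ℝ) / (i.factorial : ℝ) * (1 / A) ^ i) =
      T n A l := by
    unfold T
    refine sum_congr rfl fun i hi => ?_
    have hil : i ≤ l := by
      have := mem_range.1 hi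
      omega
    obtain ⟨k, rfl⟩ := Nat.exists_eq_add_of_le hil
    rw [Nat.add_sub_cancel_left, pow_add, one_div, inv_pow]
    field_simp
  rw [hT] at h
  have hg : HasSum (fun k : ℕ => (n : ℝ) ^ (l + 1) / A * ((n : ℝ) / A) ^ k)
      ((n : ℝ) ^ (l + 1) / A * (1 - (n : ℝ) / A)⁻¹) :=
    (hasSum_geometric_of_lt_one (by positivity) hlt).mul_left _
  have hb := h.norm_le_of_bounded hg (fun k => ?_)
  · rw [Real.norm_eq_abs] at hb
    refine hb.trans ?_
    have h2 : (1 - (n : ℝ) / A)⁻¹ ≤ 2 := by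
      rw [inv_le_comm₀ (by linarith) (by norm_num)]
      linarith
    calc (n : ℝ) ^ (l + 1) / A * (1 - (n : ℝ) / A)⁻¹ ≤ (n : ℝ) ^ (l + 1) / A * 2 :=
          mul_le_mul_of_nonneg_left h2 (by positivity)
      _ = 2 * (n : ℝ) ^ (l + 1) / A := by ring
  · rw [Real.norm_eq_abs, abs_mul, abs_mul, abs_div, abs_of_pos (pow_pos hA0 l),
      abs_of_pos (pow_pos (one_div_pos.2 hA0) (k + (l + 1))),
      abs_of_pos (Nat.cast_pos.2 (Nat.factorial_pos _) : (0 : ℝ) < ((k + (l + 1)).factorial : ℝ))]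
    have h3 : |(N n (k + (l + 1)) : ℝ)| / ((k + (l + 1)).factorial : ℝ) ≤
        (n : ℝ) ^ (k + (l + 1)) := by
      rw [div_le_iff₀ (Nat.cast_pos.2 (Nat.factorial_pos _)), mul_comm]
      exact abs_N_le n _ hn
    calc A ^ l * (|(N n (k + (l + 1)) : ℝ)| / ((k + (l + 1)).factorial : ℝ) *
          (1 / A) ^ (k + (l + 1)))
        ≤ A ^ l * ((n : ℝ) ^ (k + (l + 1)) * (1 / A) ^ (k + (l + 1))) := by
          apply mul_le_mul_of_nonneg_left _ (by positivity)
          exact mul_le_mul_of_nonneg_right h3 (by positivity)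
      _ = (n : ℝ) ^ (l + 1) / A * ((n : ℝ) / A) ^ k := by
          rw [one_div, inv_pow, div_pow, pow_add, pow_add, pow_add, pow_add, pow_one]
          field_simp

end Pool.Agent.Helper50.PR
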