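import Pool.Agent.Helper14.PR.Binom
import Pool.Agent.Helper28.PR.Chi
import Pool.Agent.Helper28.PR.NumTh

/-! # PR-4: the primality criterion -/

open Finset

namespace Pool.Agent.Helper50.PR

namespace Crit

/-- `n!` times the polynomial part of `z ξ` -/
noncomputable def B (n : ℕ) (A : ℤ) : ℤ :=
  ∑ l ∈ range (n + 1), (chi n).coeff l *
    ∑ i ∈ range (l + 1), N n i * ((n.factorial / i.factorial : ℕ) : ℤ) * A ^ (l - i)

/-- the polynomial part -/
noncomputable def beta (n : ℕ) (A : ℝ) : ℝ :=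
  ∑ l ∈ range (n + 1), ((chi n).coeff l : ℝ) * T n A l

theorem dvd_B (n : ℕ) (hn : 1 ≤ n) (A d : ℤ)
    (h : ∀ i < n, d ∣ N n i * ((n.factorial / i.factorial : ℕ) : ℤ)) : d ∣ B n A - N n n := by
  unfold B
  rw [sum_range_succ, chi_coeff_self n hn, one_mul, sum_range_succ, Nat.div_self (Nat.factorial_pos n),
    Nat.sub_self, pow_zero, Nat.cast_one, mul_one, mul_one]
  have h1 : d ∣ ∑ l ∈ range n, (chi n).coeff l *
      ∑ i ∈ range (l + 1), N n i * ((n.factorial / i.factorial : ℕ) : ℤ) * A ^ (l - i) := by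
    apply dvd_sum
    intro l hl
    apply Dvd.dvd.mul_left
    apply dvd_sum
    intro i hi
    apply Dvd.dvd.mul_right
    apply h
    rw [mem_range] at hl hi
    omega
  have h2 : d ∣ ∑ i ∈ range n, N n i * ((n.factorial / i.factorial : ℕ) : ℤ) * A ^ (n - i) := by
    apply dvd_sum
    intro i hi
    apply Dvd.dvd.mul_right
    exact h i (mem_range.1 hi)
  have h3 := dvd_add h1 h2
  convert! h3 using 1
  ring

theorem factorial_mul_beta (n : ℕ) (A : ℤ) :
    (n.factorial : ℝ) * beta n (A : ℝ) = (B n A : ℝ) := by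
  unfold beta B T
  rw [mul_sum, Int.cast_sum]
  refine sum_congr rfl fun l hl => ?_
  rw [Int.cast_mul, Int.cast_sum, mul_left_comm, mul_sum]
  congr 1
  refine sum_congr rfl fun i hi => ?_
  rw [Int.cast_mul, Int.cast_mul, Int.cast_natCast, Int.cast_pow]
  rw [mem_range] at hl hi
  have h1 : ((n.factorial / i.factorial : ℕ) : ℝ) = (n.factorial : ℝ) / i.factorial :=
    Nat.cast_div (Nat.factorial_dvd_factorial (by omega))
      (Nat.cast_ne_zero.2 (Nat.factorial_ne_zero i))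
  rw [h1]
  ring

theorem approx {n a : ℕ} (a1 : 1 < a) (hn : 1 ≤ n) (ha : n ≤ a) :
    |beta n (2 * a) - 2 * (Pell.xn a1 n : ℝ) * xi n (2 * a)| ≤
      2 * (2 * (n : ℝ)) ^ (n + 1) / (2 * a) := by
  have hn' : (1 : ℝ) ≤ n := by exact_mod_cast hn
  have ha' : (n : ℝ) ≤ a := by exact_mod_cast ha
  have hA : 2 * (n : ℝ) ≤ 2 * a := by linarith
  have hA0 : (0 : ℝ) < 2 * a := by linarith
  have hz : 2 * (Pell.xn a1 n : ℝ) =
      ∑ l ∈ range (n + 1), ((chi n).coeff l : ℝ) * (2 * (a : ℝ)) ^ l := by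
    have h1 := chi_eval_xn a1 n
    rw [Polynomial.eval_eq_sum_range' (Nat.lt_succ_of_le (chi_natDegree_le n))] at h1
    have h2 : (((∑ l ∈ range (n + 1), (chi n).coeff l * (2 * (a : ℤ)) ^ l : ℤ)) : ℝ) =
        ((2 * (Pell.xn a1 n : ℤ) : ℤ) : ℝ) := by
      exact congrArg _ h1
    push_cast at h2
    exact h2.symm
  have h3 : beta n (2 * a) - 2 * (Pell.xn a1 n : ℝ) * xi n (2 * a) =
      -∑ l ∈ range (n + 1), ((chi n).coeff l : ℝ) *
        ((2 * (a : ℝ)) ^ l * xi n (2 * a) - T n (2 * a) l) := by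
    rw [hz, sum_mul]
    unfold beta
    rw [← sum_sub_distrib, ← sum_neg_distrib]
    refine sum_congr rfl fun l _ => ?_
    ring
  rw [h3, abs_neg]
  refine (abs_sum_le_sum_abs _ _).trans ?_
  have h4 : ∀ l ∈ range (n + 1), |((chi n).coeff l : ℝ) *
      ((2 * (a : ℝ)) ^ l * xi n (2 * a) - T n (2 * a) l)| ≤
      |((chi n).coeff l : ℝ)| * (2 * (n : ℝ) ^ (n + 1) / (2 * a)) := by
    intro l hl
    rw [abs_mul]
    apply mul_le_mul_of_nonneg_left _ (abs_nonneg _)
    refine (xi_trunc n l hn _ hA).trans ?_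
    rw [div_le_div_iff_of_pos_right hA0]
    apply mul_le_mul_of_nonneg_left _ (by norm_num)
    exact pow_le_pow_right₀ hn' (by have := mem_range.1 hl; omega)
  refine (sum_le_sum h4).trans ?_
  rw [← sum_mul]
  have h5 : ∑ l ∈ range (n + 1), |((chi n).coeff l : ℝ)| ≤ 2 ^ (n + 1) := by
    have := chi_l1 n
    exact_mod_cast this
  calc (∑ l ∈ range (n + 1), |((chi n).coeff l : ℝ)|) * (2 * (n : ℝ) ^ (n + 1) / (2 * a))
      ≤ 2 ^ (n + 1) * (2 * (n : ℝ) ^ (n + 1) / (2 * a)) :=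
        mul_le_mul_of_nonneg_right h5 (by positivity)
    _ = _ := by
        rw [mul_pow]
        ring

end Crit

open Crit

theorem crit_prime {p a : ℕ} (a1 : 1 < a) (hp : p.Prime) (ha : p ≤ a) :
    ∃ Q : ℤ, |(Q : ℝ) - 1 / p - 2 * (Pell.xn a1 p : ℝ) * xi p (2 * a)|
      ≤ 2 * (2 * (p : ℝ)) ^ (p + 1) / (2 * a) := by
  have hp1 : 1 ≤ p := hp.one_lt.le
  have hd : (p.factorial : ℤ) ∣ B p (2 * a) - N p p := by
    apply dvd_B p hp1
    intro i hi
    have hco : Nat.Coprime p i.factorial :=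
      (Nat.Prime.coprime_iff_not_dvd hp).2 (fun h => absurd ((Nat.Prime.dvd_factorial hp).1 h)
        (by omega))
    obtain ⟨c, hc⟩ := factorial_dvd_N p i hco
    rw [hc]
    have h1 : i.factorial * (p.factorial / i.factorial) = p.factorial :=
      Nat.mul_div_cancel' (Nat.factorial_dvd_factorial hi.le)
    refine ⟨c, ?_⟩
    have h2 : (i.factorial : ℤ) * ((p.factorial / i.factorial : ℕ) : ℤ) = p.factorial := by
      exact_mod_cast h1
    rw [← h2]
    ring
  have hd2 := dvd_add hd (factorial_dvd_N_prime p hp)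
  obtain ⟨Q, hQ⟩ := hd2
  refine ⟨Q, ?_⟩
  have hf0 : (p.factorial : ℝ) ≠ 0 := Nat.cast_ne_zero.2 (Nat.factorial_ne_zero p)
  have hp0 : (p : ℝ) ≠ 0 := Nat.cast_ne_zero.2 (by omega)
  have hQ' : (Q : ℝ) = beta p (2 * a) + 1 / p := by
    have h1 := factorial_mul_beta p (2 * a)
    push_cast at h1
    have h2 : ((B p (2 * a) - N p p + (N p p + ((p - 1).factorial : ℤ)) : ℤ) : ℝ) =
        ((p.factorial * Q : ℤ) : ℝ) := congrArg _ hQ
    push_cast at h2
    have h3 : (p.factorial : ℝ) = p * ((p - 1).factorial : ℝ) := by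
      exact_mod_cast (Nat.mul_factorial_pred (by omega : p ≠ 0)).symm
    have h4 : (p.factorial : ℝ) * Q = p.factorial * (beta p (2 * a) + 1 / p) := by
      rw [← h2, mul_add, h1, h3]
      field_simp
      ring
    exact mul_left_cancel₀ hf0 h4
  rw [hQ']
  have h5 := approx a1 hp1 ha
  have h6 : beta p (2 * a) + 1 / (p : ℝ) - 1 / p = beta p (2 * a) := by ring
  rw [h6]
  exact h5

theorem crit_composite {n a : ℕ} (a1 : 1 < a) (hn : 3 ≤ n) (hp : ¬ n.Prime) (ha : n ≤ a) (Q : ℤ) :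
    1 / (n.factorial : ℝ) - 2 * (2 * (n : ℝ)) ^ (n + 1) / (2 * a)
      ≤ |(Q : ℝ) - 1 / n - 2 * (Pell.xn a1 n : ℝ) * xi n (2 * a)| := by
  have hn1 : 1 ≤ n := by omega
  obtain ⟨r, hr, hrn⟩ := Nat.exists_prime_and_dvd (show n ≠ 1 by omega)
  have hrlt : r < n := lt_of_le_of_ne (Nat.le_of_dvd (by omega) hrn) (fun h => hp (h ▸ hr))
  have hd : (r : ℤ) ∣ B n (2 * a) - N n n := by
    apply dvd_B n hn1
    intro i hi
    apply Dvd.dvd.mul_left
    have h1 : r ∣ n.factorial / i.factorial := by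
      obtain ⟨k, hk⟩ := Nat.factorial_dvd_factorial (show i ≤ n - 1 by omega)
      have h2 : n.factorial = i.factorial * (n * k) := by
        rw [← Nat.mul_factorial_pred (by omega : n ≠ 0), hk]
        ring
      rw [h2, Nat.mul_div_cancel_left _ (Nat.factorial_pos i)]
      exact hrn.mul_right k
    exact_mod_cast h1
  have hN : (r : ℤ) ∣ N n n - 1 := by
    have h1 := (N_modEq_one n n).symm.dvd
    exact dvd_trans (by exact_mod_cast hrn) h1
  have hf0 : (n.factorial : ℝ) ≠ 0 := Nat.cast_ne_zero.2 (Nat.factorial_ne_zero n)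
  have hf1 : (0 : ℝ) < n.factorial := Nat.cast_pos.2 (Nat.factorial_pos n)
  have hn0 : (n : ℝ) ≠ 0 := Nat.cast_ne_zero.2 (by omega)
  have hne : (n.factorial : ℤ) * Q - ((n - 1).factorial : ℤ) - B n (2 * a) ≠ 0 := by
    intro h0
    have h1 : (r : ℤ) ∣ (n.factorial : ℤ) := by
      exact_mod_cast (Nat.Prime.dvd_factorial hr).2 hrlt.le
    have h2 : (r : ℤ) ∣ ((n - 1).factorial : ℤ) := by
      exact_mod_cast (Nat.Prime.dvd_factorial hr).2 (by omega)
    have h3 : (r : ℤ) ∣ 1 := by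
      have h4 : (1 : ℤ) = (n.factorial : ℤ) * Q - ((n - 1).factorial : ℤ) - (B n (2 * a) - N n n)
          - (N n n - 1) - ((n.factorial : ℤ) * Q - ((n - 1).factorial : ℤ) - B n (2 * a)) := by
        ring
      rw [h4, h0, sub_zero]
      exact dvd_sub (dvd_sub (dvd_sub (h1.mul_right Q) h2) hd) hN
    have h5 : r ∣ 1 := by exact_mod_cast h3
    exact hr.one_lt.ne' (Nat.dvd_one.1 h5)
  have h1 := factorial_mul_beta n (2 * a)
  push_cast at h1
  have h3 : (n.factorial : ℝ) = n * ((n - 1).factorial : ℝ) := by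
    exact_mod_cast (Nat.mul_factorial_pred (by omega : n ≠ 0)).symm
  have h4 : (n.factorial : ℝ) * ((Q : ℝ) - 1 / n - beta n (2 * a)) =
      (((n.factorial : ℤ) * Q - ((n - 1).factorial : ℤ) - B n (2 * a) : ℤ) : ℝ) := by
    push_cast
    rw [mul_sub, h1, mul_sub]
    congr 2
    rw [h3]
    field_simp
  have h5 : (1 : ℝ) ≤ |(((n.factorial : ℤ) * Q - ((n - 1).factorial : ℤ) - B n (2 * a) : ℤ) : ℝ)| := by
    have := Int.one_le_abs hne
    exact_mod_cast this
  rw [← h4, abs_mul, abs_of_pos hf1] at h5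
  have h6 : 1 / (n.factorial : ℝ) ≤ |(Q : ℝ) - 1 / n - beta n (2 * a)| := by
    rw [div_le_iff₀ hf1]
    linarith
  have h7 := approx a1 hn1 ha
  have h8 : |(Q : ℝ) - 1 / n - beta n (2 * a)| ≤
      |(Q : ℝ) - 1 / n - 2 * (Pell.xn a1 n : ℝ) * xi n (2 * a)| +
        |beta n (2 * a) - 2 * (Pell.xn a1 n : ℝ) * xi n (2 * a)| := by
    have h9 : (Q : ℝ) - 1 / n - beta n (2 * a) =
        ((Q : ℝ) - 1 / n - 2 * (Pell.xn a1 n : ℝ) * xi n (2 * a)) -
        (beta n (2 * a) - 2 * (Pell.xn a1 n : ℝ) * xi n (2 * a)) := by ring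
    rw [h9]
    exact abs_sub _ _
  linarith

end Pool.Agent.Helper50.PR
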